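import Pool.Agent.TH869.LPD.Words

set_option autoImplicit false

/-!
# Digits of the values `f(l) x + h(l)`
-/

namespace Pool.Agent.TH869.LPD

open Finset Polynomial Pool.Agent.W226.MP

lemma mono_bd (D N K1 K r c1 c : ℝ) (hN : 0 ≤ N) (h1 : D ≤ N) (h2 : D ≤ K1 * N * r ^ c1)
    (hK1 : K1 ≤ K) (hK0 : 0 ≤ K1) (hK : 1 ≤ K) (hr : 0 < r) (hc : 0 ≤ c) (hcc : c ≤ c1) :
    D ≤ K * N * r ^ c := by
  rcases le_total r 1 with h | h
  · refine h2.trans ?_
    have := Real.rpow_le_rpow_of_exponent_ge hr h hcc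
    gcongr
  · have h3 : 1 ≤ r ^ c := Real.one_le_rpow h hc
    calc D ≤ 1 * N * 1 := by linarith
      _ ≤ K * N * r ^ c := by gcongr

/-- the sequence -/
noncomputable def seqv (f : ℤ[X]) (h : ℝ[X]) (x : ℝ) (l : ℕ) : ℝ :=
  ((f.eval (l:ℤ) : ℤ) : ℝ) * x + h.eval (l:ℝ)

theorem poly_disc (d : ℕ) : ∃ c : ℝ, 0 < c ∧ c ≤ 1 ∧ ∃ K : ℝ, 1 ≤ K ∧
    ∀ x κ c0 : ℝ, 0 < κ → 0 < c0 →
    (∀ q : ℕ, 1 ≤ q → ∀ p : ℤ, c0 ≤ (q : ℝ) ^ κ * |q * x - p|) →
    ∀ g : ℕ, 2 ≤ g → ∀ f : ℤ[X], 1 ≤ f.natDegree → f.natDegree ≤ d →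
    ∀ h : ℝ[X], h.natDegree < f.natDegree →
    ∀ N : ℕ, 1 ≤ N → ∀ S : ℕ, ∃ s : ℕ, S ≤ s ∧
      (s:ℝ) ≤ (1+κ) * S + κ * (Real.log (N * |(f.leadingCoeff:ℝ)|) / Real.log g) +
        (|Real.log c0|/Real.log 2 + 1) ∧
      ∀ α β : ℝ, 0 ≤ α → α ≤ β → β ≤ 1 →
        |(cntArc N (fun l => (g:ℝ)^s * seqv f h x l) α β : ℝ) -
          (β - α) * N| ≤ K * N * ((g:ℝ)/N)^c := by
  induction d with
  | zero =>
    refine ⟨1, one_pos, le_rfl, 1, le_rfl, ?_⟩
    intro x κ c0 _ _ _ g _ f h1 h2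
    omega
  | succ d ih =>
    obtain ⟨c1, hc1, hc11, K1, hK1, h1⟩ := ih
    obtain ⟨c2, hc2, hc21, K2, hK2, h2⟩ := poly_disc_deg d
    refine ⟨min c1 c2, lt_min hc1 hc2, (min_le_left _ _).trans hc11, max K1 K2,
      hK1.trans (le_max_left _ _), ?_⟩
    intro x κ c0 hκ hc0 hx g hg f hf1 hf2 h hh N hN S
    have hgr : (2:ℝ) ≤ g := by exact_mod_cast hg
    have hNr : (1:ℝ) ≤ N := by exact_mod_cast hN
    rcases Nat.lt_or_ge f.natDegree (d+1) with hlt | hge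
    · obtain ⟨s, a1, a2, a3⟩ := h1 x κ c0 hκ hc0 hx g hg f hf1 (by omega) h hh N hN S
      refine ⟨s, a1, a2, fun α β hα hαβ hβ => ?_⟩
      exact mono_bd _ _ K1 _ _ c1 _ (by linarith) (cntArc_triv N _ α β hα hαβ hβ) (a3 α β hα hαβ hβ)
        (le_max_left _ _) (by linarith) (hK1.trans (le_max_left _ _)) (by positivity)
        (lt_min hc1 hc2).le (min_le_left _ _)
    · obtain ⟨s, a1, a2, a3⟩ := h2 x κ c0 hκ hc0 hx g hg f (by omega) h (by omega) N hN S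
      refine ⟨s, a1, a2, fun α β hα hαβ hβ => ?_⟩
      exact mono_bd _ _ K2 _ _ c2 _ (by linarith) (cntArc_triv N _ α β hα hαβ hβ) (a3 α β hα hαβ hβ)
        (le_max_right _ _) (by linarith) (hK1.trans (le_max_left _ _)) (by positivity)
        (lt_min hc1 hc2).le (min_le_right _ _)

/-- cells are arcs -/
lemma cell_arc (N b L n : ℕ) (hb : 0 < b) (y : ℕ → ℝ) (z : ℕ) :
    ((range N).filter (fun m : ℕ =>
      ⌊Int.fract (y m * (b:ℝ)^n) * ((b ^ L : ℕ) : ℝ)⌋₊ = z)).card =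
      cntArc N (fun l => (b:ℝ)^n * y l) (z / (b:ℝ)^L) ((z+1) / (b:ℝ)^L) := by
  rw [cntArc_eq]
  congr 1
  apply Finset.filter_congr
  intro m _
  have hbL : (0:ℝ) < (b:ℝ)^L := by
    have : (0:ℝ) < b := by exact_mod_cast hb
    positivity
  rw [mul_comm (y m), Nat.cast_pow]
  have h0 : 0 ≤ Int.fract ((b:ℝ)^n * y m) * (b:ℝ)^L :=
    mul_nonneg (Int.fract_nonneg _) hbL.le
  rw [Nat.floor_eq_iff h0, div_le_iff₀ hbL, lt_div_iff₀ hbL]

/-- **Main theorem.** -/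
theorem poly_words (d : ℕ) : ∃ c : ℝ, 0 < c ∧ c ≤ 1 ∧ ∃ K : ℝ, 1 ≤ K ∧
    ∀ x κ c0 : ℝ, 0 < κ → 0 < c0 →
    (∀ q : ℕ, 1 ≤ q → ∀ p : ℤ, c0 ≤ (q : ℝ) ^ κ * |q * x - p|) →
    ∀ b : ℕ, 2 ≤ b → ∀ f : ℤ[X], 1 ≤ f.natDegree → f.natDegree ≤ d →
    ∀ h : ℝ[X], h.natDegree < f.natDegree → ∀ N : ℕ, 1 ≤ N →
    (∀ S : ℕ, ∃ s : ℕ, S ≤ s ∧
      (s:ℝ) ≤ (1+κ) * S + κ * (Real.log (N * |(f.leadingCoeff:ℝ)|) / Real.log b) +
        (|Real.log c0|/Real.log 2 + 1) ∧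
      (∀ α β : ℝ, 0 ≤ α → α ≤ β → β ≤ 1 →
        |(cntArc N (fun l => (b:ℝ)^s * seqv f h x l) α β : ℝ) -
          (β - α) * N| ≤ K * N * ((b:ℝ)/N)^c) ∧
      (∀ k L : ℕ, 1 ≤ k → k ≤ L → (b:ℝ)^L ≤ ((N:ℝ)/b)^c → ∀ ε : ℝ, 0 < ε → ε ≤ 1 →
        ({l : ℕ | l < N ∧ ∃ w : Fin k → Fin b, ε * (L + 1 - k : ℕ) + k <
          |(occ b k w (seqv f h x l) s (L + 1 - k) : ℝ) - (L + 1 - k : ℕ) / (b : ℝ) ^ k|}.ncard : ℝ)
          ≤ K * k * (b:ℝ)^k * Real.exp (-(ε ^ 2 / 4) * ((L + 1 - k) / k : ℕ)) * N)) ∧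
    (∀ k : ℕ, 1 ≤ k →
      ({l : ℕ | l < N ∧ ∃ w : Fin k → Fin b, {p : ℕ | OccursAt b k w (seqv f h x l) p}.Finite}.ncard
        : ℝ) ≤ K * (b:ℝ)^k * N * ((b:ℝ)/N)^(c / (2 * k * (b:ℝ)^k * Real.log b))) := by
  classical
  obtain ⟨c, hc, hc1, K, hK, hmain⟩ := poly_disc d
  refine ⟨c, hc, hc1, 2 * (1 + K), by linarith, ?_⟩
  intro x κ c0 hκ hc0 hx b hb f hf1 hf2 h hh N hN
  have hbr : (2:ℝ) ≤ b := by exact_mod_cast hb
  have hb0 : (0:ℝ) < b := by linarith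
  have hNr : (1:ℝ) ≤ N := by exact_mod_cast hN
  have hN0 : (0:ℝ) < N := by linarith
  have hlb : 0 < Real.log b := Real.log_pos (by linarith)
  set y := seqv f h x with hy
  have hinv : ((N:ℝ)/b)^c * ((b:ℝ)/N)^c = 1 := by
    rw [← Real.mul_rpow (by positivity) (by positivity)]
    have : (N:ℝ)/b * (b/N) = 1 := by field_simp
    rw [this, Real.one_rpow]
  set Δ : ℝ := K * N * ((b:ℝ)/N)^c with hΔ
  have hΔ0 : 0 ≤ Δ := by positivity
  have hcell : ∀ s : ℕ, (∀ α β : ℝ, 0 ≤ α → α ≤ β → β ≤ 1 →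
        |(cntArc N (fun l => (b:ℝ)^s * y l) α β : ℝ) - (β - α) * N| ≤ Δ) → ∀ L : ℕ, ∀ z < b ^ L,
      (((range N).filter (fun m : ℕ =>
      ⌊Int.fract (y m * (b:ℝ)^s) * ((b ^ L : ℕ) : ℝ)⌋₊ = z)).card : ℝ) ≤ N / (b:ℝ)^L + Δ := by
    intro s hs L z hz
    rw [cell_arc N b L s (by omega)]
    have hbL : (0:ℝ) < (b:ℝ)^L := by positivity
    have hz' : (z:ℝ) + 1 ≤ (b:ℝ)^L := by exact_mod_cast hz
    have h1 := hs (z / (b:ℝ)^L) ((z+1) / (b:ℝ)^L) (by positivity) (by gcongr; linarith)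
      (by rw [div_le_one hbL]; exact hz')
    have h2 := (abs_le.1 h1).2
    have h3 : (((z:ℝ)+1) / (b:ℝ)^L - z / (b:ℝ)^L) * N = N / (b:ℝ)^L := by ring
    rw [h3] at h2
    linarith
  have hwin : ∀ L : ℕ, (b:ℝ)^L ≤ ((N:ℝ)/b)^c → (b:ℝ)^L * (N / (b:ℝ)^L + Δ) ≤ (1+K) * N := by
    intro L hL
    have hbL : (0:ℝ) < (b:ℝ)^L := by positivity
    have h1 : (b:ℝ)^L * (N / (b:ℝ)^L + Δ) = N + (b:ℝ)^L * Δ := by field_simp
    have h2 : (b:ℝ)^L * Δ ≤ K * N := by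
      calc (b:ℝ)^L * Δ ≤ ((N:ℝ)/b)^c * Δ := by gcongr
        _ = K * N * (((N:ℝ)/b)^c * ((b:ℝ)/N)^c) := by rw [hΔ]; ring
        _ = K * N := by rw [hinv, mul_one]
    rw [h1]; linarith
  refine ⟨?_, ?_⟩
  · intro S
    obtain ⟨s, a1, a2, a3⟩ := hmain x κ c0 hκ hc0 hx b hb f hf1 hf2 h hh N hN S
    refine ⟨s, a1, a2, ?_, ?_⟩
    · intro α β hα hαβ hβ
      refine (a3 α β hα hαβ hβ).trans ?_
      have : 0 ≤ (N:ℝ) * ((b:ℝ)/N)^c := by positivity
      nlinarith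
    · intro k L hk hkL hL ε hε hε1
      have h1 := freqG b k L hb hk hkL s N y (N / (b:ℝ)^L + Δ) (by positivity)
        (hcell s a3 L) ε hε hε1 ((range N).filter (fun l : ℕ => ∃ w : Fin k → Fin b,
          ε * (L + 1 - k : ℕ) + k <
          |(occ b k w (y l) s (L + 1 - k) : ℝ) - (L + 1 - k : ℕ) / (b : ℝ) ^ k|)) (by
            intro m hm
            rw [Finset.mem_filter, Finset.mem_range] at hm
            obtain ⟨hmM, w, hw⟩ := hm
            refine ⟨hmM, ext b k w, ext_lt b k hb w, ?_⟩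
            have e : ((range (L + 1 - k)).filter (fun j =>
                ∀ s' < k, ⌊(y m) * (b : ℝ) ^ (s + j + s' + 1)⌋ % (b : ℤ) = ext b k w s')).card
                = occ b k w (y m) s (L + 1 - k) := by
              unfold occ
              congr 1
              apply Finset.filter_congr
              intro j _
              exact (occursAt_iff b k w (y m) (s + j)).symm
            rw [e]
            exact hw)
      have e1 : {l : ℕ | l < N ∧ ∃ w : Fin k → Fin b, ε * (L + 1 - k : ℕ) + k <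
          |(occ b k w (y l) s (L + 1 - k) : ℝ) - (L + 1 - k : ℕ) / (b : ℝ) ^ k|} =
          (((range N).filter (fun l : ℕ => ∃ w : Fin k → Fin b,
          ε * (L + 1 - k : ℕ) + k <
          |(occ b k w (y l) s (L + 1 - k) : ℝ) - (L + 1 - k : ℕ) / (b : ℝ) ^ k|) : Finset ℕ) : Set ℕ) := by
        ext l; simp
      rw [e1, Set.ncard_coe_finset]
      refine h1.trans ?_
      have h2 := hwin L hL
      calc 2 * k * (b : ℝ) ^ k * Real.exp (-(ε ^ 2 / 4) * ((L + 1 - k) / k : ℕ)) *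
            ((b : ℝ) ^ L * (N / (b:ℝ)^L + Δ))
          ≤ 2 * k * (b : ℝ) ^ k * Real.exp (-(ε ^ 2 / 4) * ((L + 1 - k) / k : ℕ)) *
            ((1+K) * N) := by gcongr
        _ = _ := by ring
  · intro k hk
    have hkr : (1:ℝ) ≤ k := by exact_mod_cast hk
    set E : ℝ := c / (2 * k * (b:ℝ)^k * Real.log b) with hE
    have hE0 : 0 < E := by positivity
    have hbk : (1:ℝ) ≤ (b:ℝ)^k := one_le_pow₀ (by linarith)
    set T : Finset ℕ := (range N).filter (fun l : ℕ => ∃ w : Fin k → Fin b,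
      {p : ℕ | OccursAt b k w (y l) p}.Finite) with hT
    have e1 : {l : ℕ | l < N ∧ ∃ w : Fin k → Fin b, {p : ℕ | OccursAt b k w (y l) p}.Finite} =
        ((T : Finset ℕ) : Set ℕ) := by
      ext l; simp [hT]
    rw [e1, Set.ncard_coe_finset]
    rcases lt_or_ge (N:ℝ) b with hNb | hNb
    · have h1 : (T.card : ℝ) ≤ N := by
        have : T.card ≤ (range N).card := card_le_card (filter_subset _ _)
        rw [card_range] at this
        exact_mod_cast this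
      have h2 : 1 ≤ ((b:ℝ)/N)^E := by
        apply Real.one_le_rpow _ hE0.le
        rw [le_div_iff₀ hN0]; linarith
      calc (T.card : ℝ) ≤ 1 * 1 * N * 1 := by linarith
        _ ≤ 2 * (1+K) * (b:ℝ)^k * N * ((b:ℝ)/N)^E := by gcongr; linarith
    · have hNb1 : 1 ≤ (N:ℝ)/b := by rw [le_div_iff₀ hb0]; linarith
      have hlNb : 0 ≤ Real.log ((N:ℝ)/b) := Real.log_nonneg hNb1
      set m : ℕ := ⌊c * Real.log ((N:ℝ)/b) / (k * Real.log b)⌋₊ with hm
      have hm1 : (m:ℝ) ≤ c * Real.log ((N:ℝ)/b) / (k * Real.log b) := Nat.floor_le (by positivity)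
      have hm2 : c * Real.log ((N:ℝ)/b) / (k * Real.log b) < m + 1 := Nat.lt_floor_add_one _
      have hL : (b:ℝ)^(k*m) ≤ ((N:ℝ)/b)^c := by
        rw [← Real.log_le_log_iff (by positivity) (by positivity), Real.log_pow,
          Real.log_rpow (by positivity)]
        rw [le_div_iff₀ (by positivity)] at hm1
        push_cast
        linarith
      set Tw : (Fin k → Fin b) → Finset ℕ := fun w => (range N).filter (fun l : ℕ =>
        {p : ℕ | OccursAt b k w (y l) p}.Finite) with hTw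
      have hTwb : ∀ w, ((Tw w).card : ℝ) ≤ 2 * (1+K) * N * ((b:ℝ)/N)^E := by
        intro w
        have h2 : ∀ l ∈ Tw w, ∃ n0 : ℕ, ∀ p : ℕ, n0 ≤ p → ¬ OccursAt b k w (y l) p := by
          intro l hl
          obtain ⟨n0, hn0⟩ := (mem_filter.1 hl).2.bddAbove
          refine ⟨n0 + 1, fun p hp hcon => ?_⟩
          have := hn0 hcon
          omega
        choose! n0 hn0 using h2
        obtain ⟨s, a1, a2, a3⟩ := hmain x κ c0 hκ hc0 hx b hb f hf1 hf2 h hh N hN ((Tw w).sup n0)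
        have h1 := avoidG b k m hb hk s N y (N / (b:ℝ)^(k*m) + Δ) (by positivity)
          (hcell s a3 (k*m)) w (Tw w) (by
            intro l hl
            refine ⟨Finset.mem_range.1 (mem_filter.1 hl).1, fun u _ => ?_⟩
            apply hn0 l hl
            have := Finset.le_sup (f := n0) hl
            omega)
        have h3 := hwin (k*m) hL
        have h4 : Real.exp (-(m / (2 * (b:ℝ) ^ k))) ≤ 2 * ((b:ℝ)/N)^E := by
          have h5 : ((b:ℝ)/N)^E = Real.exp (-(E * Real.log ((N:ℝ)/b))) := by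
            rw [Real.rpow_def_of_pos (by positivity)]
            congr 1
            have : Real.log ((b:ℝ)/N) = - Real.log ((N:ℝ)/b) := by
              rw [← Real.log_inv, inv_div]
            rw [this]; ring
          have h6 : -(m / (2 * (b:ℝ) ^ k)) ≤ 1/2 + -(E * Real.log ((N:ℝ)/b)) := by
            have h7 : E * Real.log ((N:ℝ)/b) =
                c * Real.log ((N:ℝ)/b) / (k * Real.log b) / (2 * (b:ℝ)^k) := by
              rw [hE]; field_simp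
            have h8 : c * Real.log ((N:ℝ)/b) / (k * Real.log b) / (2 * (b:ℝ)^k) ≤
                (m+1) / (2 * (b:ℝ)^k) := by gcongr
            have h9 : ((m:ℝ)+1) / (2 * (b:ℝ)^k) = m / (2 * (b:ℝ)^k) + 1 / (2 * (b:ℝ)^k) := by ring
            have h10 : 1 / (2 * (b:ℝ)^k) ≤ 1/2 := by
              rw [div_le_div_iff₀ (by positivity) (by norm_num)]
              linarith
            rw [h7]; linarith
          have h7 : Real.exp (1/2) ≤ 2 := by
            have h8 := Real.exp_one_lt_d9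
            have h9 : Real.exp (1/2) * Real.exp (1/2) = Real.exp 1 := by
              rw [← Real.exp_add]; norm_num
            nlinarith [Real.exp_pos (1/2)]
          calc Real.exp (-(m / (2 * (b:ℝ) ^ k))) ≤ Real.exp (1/2 + -(E * Real.log ((N:ℝ)/b))) :=
                Real.exp_le_exp.2 h6
            _ = Real.exp (1/2) * ((b:ℝ)/N)^E := by rw [Real.exp_add, h5]
            _ ≤ 2 * ((b:ℝ)/N)^E := by gcongr
        calc ((Tw w).card : ℝ) ≤ Real.exp (-(m / (2 * (b:ℝ) ^ k))) *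
              ((b:ℝ) ^ (k * m) * (N / (b:ℝ)^(k*m) + Δ)) := h1
          _ ≤ (2 * ((b:ℝ)/N)^E) * ((1+K) * N) := by gcongr
          _ = _ := by ring
      have h5 : T.card ≤ ∑ w : Fin k → Fin b, (Tw w).card := by
        refine (card_le_card ?_).trans card_biUnion_le
        intro l hl
        rw [hT, Finset.mem_filter] at hl
        obtain ⟨hl1, w, hw⟩ := hl
        rw [mem_biUnion]
        exact ⟨w, mem_univ _, mem_filter.2 ⟨hl1, hw⟩⟩
      have h6 : (T.card : ℝ) ≤ ∑ w : Fin k → Fin b, ((Tw w).card : ℝ) := by exact_mod_cast h5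
      refine h6.trans ((sum_le_sum fun w _ => hTwb w).trans ?_)
      rw [sum_const, card_univ, Fintype.card_fun, Fintype.card_fin, Fintype.card_fin, nsmul_eq_mul]
      push_cast
      apply le_of_eq
      ring

end Pool.Agent.TH869.LPD
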