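import Pool.Agent.TH869.LPS.Fej

set_option autoImplicit false

/-!
# Discrepancy from exponential sums
-/

namespace Pool.Agent.TH869.LPD

open Finset Pool.Agent.H332R2.Lit Pool.Agent.TH869.LPS

open Classical in
/-- grid points near an arc -/
lemma grid_card (M : ℕ) (hM : 1 ≤ M) (A B : ℝ) (hAB : A ≤ B) :
    (((range M).filter (fun j : ℕ => ∃ n : ℤ, A ≤ (j:ℝ) / M - n ∧ (j:ℝ) / M - n ≤ B)).card : ℝ) ≤
      M * (B - A) + 1 := by
  have hMr : (0:ℝ) < M := by exact_mod_cast hM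
  set J := (range M).filter (fun j : ℕ => ∃ n : ℤ, A ≤ (j:ℝ) / M - n ∧ (j:ℝ) / M - n ≤ B) with hJ
  have hch : ∀ j : ℕ, ∃ n : ℤ, j ∈ J → A ≤ (j:ℝ) / M - n ∧ (j:ℝ) / M - n ≤ B := by
    intro j
    by_cases h : j ∈ J
    · obtain ⟨n, hn⟩ := (mem_filter.1 h).2
      exact ⟨n, fun _ => hn⟩
    · exact ⟨0, fun h' => absurd h' h⟩
  choose n hn using hch
  have h1 : J.card ≤ (Icc ⌈M * A⌉ ⌊M * B⌋).card := by
    apply card_le_card_of_injOn (fun j : ℕ => (j:ℤ) - n j * M)
    · intro j hj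
      obtain ⟨h2, h3⟩ := hn j hj
      have e1 : (((j:ℤ) - n j * M : ℤ) : ℝ) = M * ((j:ℝ) / M - n j) := by
        push_cast; field_simp
      rw [mem_coe, mem_Icc]
      constructor
      · rw [Int.ceil_le, e1]; gcongr
      · rw [Int.le_floor, e1]; gcongr
    · intro i hi j hj hij
      have hi' := mem_range.1 (mem_filter.1 hi).1
      have hj' := mem_range.1 (mem_filter.1 hj).1
      simp only at hij
      have h2 : (i:ℤ) - j = (n i - n j) * M := by linarith
      have h3 : n i - n j = 0 := by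
        by_contra h0
        rcases lt_or_gt_of_ne h0 with h4 | h4
        · have : (n i - n j) * M ≤ -1 * M := by
            apply mul_le_mul_of_nonneg_right _ (by omega)
            omega
          omega
        · have : 1 * M ≤ (n i - n j) * M := by
            apply mul_le_mul_of_nonneg_right _ (by omega)
            omega
          omega
      rw [h3, zero_mul] at h2
      omega
  have h2 : ((Icc ⌈M * A⌉ ⌊M * B⌋).card : ℝ) ≤ M * (B - A) + 1 := by
    rw [Int.card_Icc]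
    have h3 := Int.floor_le (M * B)
    have h4 := Int.le_ceil (M * A)
    rcases le_total 0 (⌊M * B⌋ + 1 - ⌈M * A⌉) with h5 | h5
    · have h6 : (((⌊M * B⌋ + 1 - ⌈M * A⌉).toNat : ℕ) : ℝ) = ((⌊M * B⌋ + 1 - ⌈M * A⌉ : ℤ) : ℝ) := by
        have := Int.toNat_of_nonneg h5
        exact_mod_cast this
      rw [h6]; push_cast; nlinarith
    · rw [Int.toNat_of_nonpos h5]
      have : 0 ≤ M * (B - A) := mul_nonneg hMr.le (by linarith)
      push_cast; linarith
  have h3 : (J.card : ℝ) ≤ ((Icc ⌈M * A⌉ ⌊M * B⌋).card : ℝ) := by exact_mod_cast h1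
  linarith

/-- upper bound for the number of points in an arc -/
theorem arc_upper (M : ℕ) (hM : 1 ≤ M) (η : ℝ) (hη : 0 < η) (x : ℕ → ℝ) (N : ℕ) (S : ℝ)
    (hS0 : 0 ≤ S)
    (hS : ∀ h : ℤ, h ≠ 0 → |h| < M → ‖∑ l ∈ range N, e (h * x l)‖ ≤ S) (α β : ℝ) (hαβ : α ≤ β)
    (T : Finset ℕ) (hT : T ⊆ range N) (hT1 : ∀ l ∈ T, ∃ n : ℤ, α ≤ x l - n ∧ x l - n ≤ β) :
    (T.card : ℝ) ≤ N * (β - α + 2 * η + 1 / M + 1 / (4 * M * η ^ 2)) + M * S := by
  classical
  have hMr : (0:ℝ) < M := by exact_mod_cast hM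
  set J := (range M).filter (fun j : ℕ => ∃ n : ℤ, α - η ≤ (j:ℝ) / M - n ∧ (j:ℝ) / M - n ≤ β + η)
    with hJ
  have hJc : (J.card : ℝ) ≤ M * (β - α + 2 * η) + 1 := by
    have := grid_card M hM (α - η) (β + η) (by linarith)
    refine this.trans (le_of_eq ?_)
    ring
  have hJM : (J.card : ℝ) ≤ M := by
    have : J.card ≤ (range M).card := card_le_card (filter_subset _ _)
    rw [card_range] at this
    exact_mod_cast this
  set D : ℝ → ℝ := fun t => ‖∑ a ∈ range M, e (a * t)‖ ^ 2 / M ^ 2 with hD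
  have hD0 : ∀ t, 0 ≤ D t := fun t => by simp only [hD]; positivity
  have hone : ∀ t, ∑ j ∈ range M, D (t - j / M) = 1 := by
    intro t
    simp only [hD]
    rw [← sum_div, orth M (by omega) t, div_self (by positivity)]
  set κ : ℝ := 1 / (4 * M * η ^ 2) with hκ
  have hpt : ∀ l ∈ T, 1 ≤ ∑ j ∈ J, D (x l - j / M) + κ := by
    intro l hl
    obtain ⟨n, hn1, hn2⟩ := hT1 l hl
    rw [← hone (x l), ← sum_filter_add_sum_filter_not (range M)
      (fun j : ℕ => ∃ n : ℤ, α - η ≤ (j:ℝ) / M - n ∧ (j:ℝ) / M - n ≤ β + η)]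
    gcongr
    have h1 : ∀ j ∈ (range M).filter (fun j : ℕ => ¬ ∃ n : ℤ, α - η ≤ (j:ℝ) / M - n ∧
        (j:ℝ) / M - n ≤ β + η), D (x l - j / M) ≤ 1 / (4 * η ^ 2 * M ^ 2) := by
      intro j hj
      have hj2 := (mem_filter.1 hj).2
      push Not at hj2
      have h2 : η ≤ |(x l - j / M) - round (x l - j / M)| := by
        by_contra hcon
        push Not at hcon
        rw [abs_lt] at hcon
        have h3 := hj2 (n - round (x l - j / M)) (by push_cast; linarith [hcon.1, hcon.2])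
        push_cast at h3
        linarith [hcon.1, hcon.2]
      have h3 := norm_geom_le _ _ hη h2 M
      simp only [hD]
      rw [div_le_div_iff₀ (by positivity) (by positivity)]
      have h4 : ‖∑ a ∈ range M, e (a * (x l - j / M))‖ ^ 2 ≤ (1 / (2 * η)) ^ 2 := by gcongr
      have h5 : (1 / (2 * η)) ^ 2 * (4 * η ^ 2) = 1 := by field_simp; norm_num
      calc ‖∑ a ∈ range M, e (a * (x l - j / M))‖ ^ 2 * (4 * η ^ 2 * (M:ℝ) ^ 2)
          ≤ (1 / (2 * η)) ^ 2 * (4 * η ^ 2 * (M:ℝ) ^ 2) := by gcongr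
        _ = 1 * (M:ℝ) ^ 2 := by rw [← mul_assoc, h5]
    refine (sum_le_sum h1).trans ?_
    rw [sum_const, nsmul_eq_mul]
    have h6 : (((range M).filter (fun j : ℕ => ¬ ∃ n : ℤ, α - η ≤ (j:ℝ) / M - n ∧
        (j:ℝ) / M - n ≤ β + η)).card : ℝ) ≤ M := by
      have : ((range M).filter (fun j : ℕ => ¬ ∃ n : ℤ, α - η ≤ (j:ℝ) / M - n ∧
        (j:ℝ) / M - n ≤ β + η)).card ≤ (range M).card := card_le_card (filter_subset _ _)
      rw [card_range] at this
      exact_mod_cast this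
    calc _ ≤ (M:ℝ) * (1 / (4 * η ^ 2 * M ^ 2)) := by gcongr
      _ = κ := by rw [hκ]; field_simp
  have hTc : (T.card : ℝ) ≤ ∑ l ∈ range N, ∑ j ∈ J, D (x l - j / M) + N * κ := by
    calc (T.card : ℝ) = ∑ l ∈ T, (1:ℝ) := by simp
      _ ≤ ∑ l ∈ T, (∑ j ∈ J, D (x l - j / M) + κ) := sum_le_sum hpt
      _ ≤ ∑ l ∈ range N, (∑ j ∈ J, D (x l - j / M) + κ) := by
          apply sum_le_sum_of_subset_of_nonneg hT
          intro l _ _
          have : 0 ≤ ∑ j ∈ J, D (x l - j / M) := sum_nonneg fun j _ => hD0 _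
          positivity
      _ = _ := by rw [sum_add_distrib, sum_const, card_range, nsmul_eq_mul]
  have hmem0 : (0:ℤ) ∈ Ioo (-(M:ℤ)) M := by rw [mem_Ioo]; omega
  have hj : ∀ j ∈ J, ∑ l ∈ range N, D (x l - j / M) ≤ N / M + S := by
    intro j _
    have h1 : ((∑ l ∈ range N, D (x l - j / M) : ℝ) : ℂ) =
        (∑ h ∈ Ioo (-(M:ℤ)) M, (nr M h : ℂ) * (e (-(h * (j / M))) *
          ∑ l ∈ range N, e (h * x l))) / M ^ 2 := by
      simp only [hD]
      push_cast
      rw [← sum_div]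
      congr 1
      have h2 : ∀ l ∈ range N, ((‖∑ a ∈ range M, e (a * (x l - j / M))‖ : ℝ) : ℂ) ^ 2 =
          ∑ h ∈ Ioo (-(M:ℤ)) M, (nr M h : ℂ) * (e (-(h * (j / M))) * e (h * x l)) := by
        intro l _
        rw [← Complex.ofReal_pow, sq_exp]
        refine sum_congr rfl fun h _ => ?_
        rw [← e_add]; congr 2; ring
      rw [sum_congr rfl h2, sum_comm]
      refine sum_congr rfl fun h _ => ?_
      rw [mul_sum, mul_sum]
    have h2 : (∑ l ∈ range N, D (x l - j / M) : ℝ) =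
        ‖((∑ l ∈ range N, D (x l - j / M) : ℝ) : ℂ)‖ := by
      rw [Complex.norm_real, Real.norm_of_nonneg (sum_nonneg fun l _ => hD0 _)]
    rw [h2, h1, norm_div, norm_pow, Complex.norm_natCast, div_le_iff₀ (by positivity),
      ← add_sum_erase _ _ hmem0]
    refine (norm_add_le _ _).trans ?_
    have h3 : ‖(nr M 0 : ℂ) * (e (-(((0:ℤ):ℝ) * (j / M))) * ∑ l ∈ range N, e (((0:ℤ):ℝ) * x l))‖
        ≤ M * N := by
      rw [nr_zero, norm_mul, norm_mul, norm_e, one_mul, Complex.norm_natCast]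
      gcongr
      refine (norm_sum_le _ _).trans ?_
      rw [sum_congr rfl fun l _ => norm_e _]
      simp
    have h4 : ‖∑ h ∈ (Ioo (-(M:ℤ)) M).erase 0, (nr M h : ℂ) * (e (-(h * (j / M))) *
          ∑ l ∈ range N, e (h * x l))‖ ≤ M ^ 2 * S := by
      refine (norm_sum_le _ _).trans ?_
      have h5 : ∀ h ∈ (Ioo (-(M:ℤ)) M).erase 0, ‖(nr M h : ℂ) * (e (-(h * (j / M))) *
          ∑ l ∈ range N, e (h * x l))‖ ≤ nr M h * S := by
        intro h hh
        rw [mem_erase, mem_Ioo] at hh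
        rw [norm_mul, norm_mul, norm_e, one_mul, Complex.norm_natCast]
        gcongr
        apply hS h hh.1
        rw [abs_lt]; exact hh.2
      refine (sum_le_sum h5).trans ?_
      rw [← sum_mul]
      gcongr
      have h6 : ∑ h ∈ (Ioo (-(M:ℤ)) M).erase 0, (nr M h : ℝ) ≤ ∑ h ∈ Ioo (-(M:ℤ)) M, (nr M h : ℝ) := by
        apply sum_le_sum_of_subset_of_nonneg (erase_subset _ _)
        intros; positivity
      have h7 : ∑ h ∈ Ioo (-(M:ℤ)) M, (nr M h : ℝ) = M ^ 2 := by exact_mod_cast nr_sum M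
      linarith
    calc _ ≤ (M:ℝ) * N + M ^ 2 * S := add_le_add h3 h4
      _ = (N / M + S) * M ^ 2 := by field_simp
  have hsw : ∑ l ∈ range N, ∑ j ∈ J, D (x l - j / M) ≤ J.card * (N / M + S) := by
    rw [sum_comm]
    refine (sum_le_sum hj).trans ?_
    rw [sum_const, nsmul_eq_mul]
  refine hTc.trans ?_
  have hN0 : (0:ℝ) ≤ N := Nat.cast_nonneg _
  calc ∑ l ∈ range N, ∑ j ∈ J, D (x l - j / M) + N * κ
      ≤ J.card * (N / M + S) + N * κ := by gcongr
    _ = J.card * (N / M) + J.card * S + N * κ := by ring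
    _ ≤ (M * (β - α + 2 * η) + 1) * (N / M) + M * S + N * κ := by gcongr
    _ = _ := by rw [hκ]; field_simp; ring

open Classical in
/-- discrepancy -/
theorem disc (m : ℕ) (hm : 1 ≤ m) (x : ℕ → ℝ) (N : ℕ) (S : ℝ) (hS0 : 0 ≤ S)
    (hS : ∀ h : ℤ, h ≠ 0 → |h| < ((m ^ 3 : ℕ) : ℤ) → ‖∑ l ∈ range N, e (h * x l)‖ ≤ S)
    (α β : ℝ) (hα : 0 ≤ α) (hαβ : α ≤ β) (hβ : β ≤ 1) :
    |(((range N).filter (fun l : ℕ => α ≤ Int.fract (x l) ∧ Int.fract (x l) < β)).card : ℝ) -
      (β - α) * N| ≤ 4 * N / m + m ^ 3 * S := by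
  have hmr : (1:ℝ) ≤ m := by exact_mod_cast hm
  have hm0 : (0:ℝ) < m := by linarith
  have hN0 : (0:ℝ) ≤ N := Nat.cast_nonneg _
  have hM : 1 ≤ m ^ 3 := Nat.one_le_pow _ _ (by omega)
  have herr : ∀ w : ℝ, (N:ℝ) * (w + 2 * (1 / m) + 1 / ((m ^ 3 : ℕ) : ℝ) +
      1 / (4 * ((m ^ 3 : ℕ) : ℝ) * (1 / (m:ℝ)) ^ 2)) + ((m ^ 3 : ℕ) : ℝ) * S ≤
      w * N + (4 * N / m + m ^ 3 * S) := by
    intro w
    push_cast
    have h1 : 1 / (m:ℝ) ^ 3 ≤ 1 / m := by
      apply one_div_le_one_div_of_le hm0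
      calc (m:ℝ) = m ^ 1 := (pow_one _).symm
        _ ≤ m ^ 3 := pow_le_pow_right₀ hmr (by norm_num)
    have h2 : 1 / (4 * (m:ℝ) ^ 3 * (1 / (m:ℝ)) ^ 2) = (1/4) * (1 / m) := by field_simp
    rw [h2]
    have h3 : 0 < 1 / (m:ℝ) := by positivity
    have h4 : 4 * (N:ℝ) / m = N * (4 * (1 / m)) := by ring
    rw [h4]
    nlinarith
  set T := (range N).filter (fun l : ℕ => α ≤ Int.fract (x l) ∧ Int.fract (x l) < β) with hT
  set T' := (range N).filter (fun l : ℕ => ¬ (α ≤ Int.fract (x l) ∧ Int.fract (x l) < β)) with hT'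
  have hup := arc_upper (m ^ 3) hM (1 / m) (by positivity) x N S hS0 hS α β hαβ T
    (filter_subset _ _) (by
      intro l hl
      obtain ⟨h1, h2⟩ := (mem_filter.1 hl).2
      exact ⟨⌊x l⌋, h1, h2.le⟩)
  have hlow := arc_upper (m ^ 3) hM (1 / m) (by positivity) x N S hS0 hS β (1 + α) (by linarith) T'
    (filter_subset _ _) (by
      intro l hl
      have h1 := (mem_filter.1 hl).2
      have h2 := Int.fract_lt_one (x l)
      have h3 := Int.fract_nonneg (x l)
      by_cases h4 : α ≤ Int.fract (x l)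
      · have h5 : β ≤ Int.fract (x l) := by
          by_contra h6
          push Not at h6
          exact h1 ⟨h4, h6⟩
        refine ⟨⌊x l⌋, h5, ?_⟩
        have : x l - ⌊x l⌋ = Int.fract (x l) := rfl
        linarith
      · push Not at h4
        refine ⟨⌊x l⌋ - 1, ?_, ?_⟩
        · have : x l - ((⌊x l⌋ - 1 : ℤ) : ℝ) = Int.fract (x l) + 1 := by
            push_cast; rw [← Int.self_sub_floor]; ring
          rw [this]; linarith
        · have : x l - ((⌊x l⌋ - 1 : ℤ) : ℝ) = Int.fract (x l) + 1 := by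
            push_cast; rw [← Int.self_sub_floor]; ring
          rw [this]; linarith)
  have hsum : (T.card : ℝ) + T'.card = N := by
    have := card_filter_add_card_filter_not (s := range N)
      (p := fun l : ℕ => α ≤ Int.fract (x l) ∧ Int.fract (x l) < β)
    rw [card_range] at this
    exact_mod_cast this
  have h1 := hup.trans (herr (β - α))
  have h2 := hlow.trans (herr (1 + α - β))
  rw [abs_le]
  constructor <;> nlinarith

end Pool.Agent.TH869.LPD
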