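import Mathlib

set_option autoImplicit false

/-!
# Good places of a number with finite irrationality measure
-/

namespace Pool.Agent.TH869.LPD

open Finset

/-- `s` is a bad place for `θ` -/
def Bad (g : ℕ) (U τ : ℝ) (θ : ℝ) (s : ℕ) : Prop :=
  ∃ u : ℕ, 1 ≤ u ∧ (u:ℝ) ≤ U ∧ ∃ t : ℤ, |(u:ℝ) * (g:ℝ)^s * θ - t| < τ

/-- a run of bad places gives a very good approximation -/
lemma run (g : ℕ) (hg : 1 ≤ g) (U τ θ : ℝ) (hτ : 0 < τ) (h : (g+1)*U*τ ≤ 1) (S n : ℕ)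
    (hb : ∀ i ≤ n, Bad g U τ θ (S+i)) :
    ∃ u : ℕ, 1 ≤ u ∧ (u:ℝ) ≤ U ∧ ∃ t : ℤ, |(u:ℝ) * (g:ℝ)^S * θ - t| ≤ U*τ / (g:ℝ)^n := by
  have hch : ∀ i : ℕ, ∃ p : ℕ × ℤ, i ≤ n → 1 ≤ p.1 ∧ (p.1:ℝ) ≤ U ∧
      |(p.1:ℝ) * (g:ℝ)^(S+i) * θ - p.2| < τ := by
    intro i
    by_cases hi : i ≤ n
    · obtain ⟨u, h1, h2, t, h3⟩ := hb i hi
      exact ⟨(u, t), fun _ => ⟨h1, h2, h3⟩⟩
    · exact ⟨(0, 0), fun h' => absurd h' hi⟩
  choose p hp using hch
  have hgr : (1:ℝ) ≤ g := by exact_mod_cast hg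
  have hU1 : 1 ≤ U := by
    obtain ⟨h1, h2, _⟩ := hp 0 (Nat.zero_le n)
    have : (1:ℝ) ≤ (p 0).1 := by exact_mod_cast h1
    linarith
  have hstep : ∀ i, i + 1 ≤ n → (g:ℤ) * (p (i+1)).1 * (p i).2 = (p i).1 * (p (i+1)).2 := by
    intro i hi
    obtain ⟨a1, a2, a3⟩ := hp i (by omega)
    obtain ⟨b1, b2, b3⟩ := hp (i+1) hi
    set u := (p i).1
    set t := (p i).2
    set v := (p (i+1)).1
    set w := (p (i+1)).2
    have hu0 : (0:ℝ) < u := by exact_mod_cast a1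
    have hv0 : (0:ℝ) < v := by exact_mod_cast b1
    have e1 : (((u:ℤ) * w - (g:ℤ) * v * t : ℤ) : ℝ) =
        g * v * ((u:ℝ) * (g:ℝ)^(S+i) * θ - t) - u * ((v:ℝ) * (g:ℝ)^(S+(i+1)) * θ - w) := by
      push_cast
      rw [← add_assoc, pow_succ]; ring
    have h1 : |(((u:ℤ) * w - (g:ℤ) * v * t : ℤ) : ℝ)| < 1 := by
      rw [e1]
      calc |g * v * ((u:ℝ) * (g:ℝ)^(S+i) * θ - t) - u * ((v:ℝ) * (g:ℝ)^(S+(i+1)) * θ - w)|
          ≤ |g * v * ((u:ℝ) * (g:ℝ)^(S+i) * θ - t)| + |u * ((v:ℝ) * (g:ℝ)^(S+(i+1)) * θ - w)| :=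
            abs_sub _ _
        _ = g * v * |(u:ℝ) * (g:ℝ)^(S+i) * θ - t| + u * |(v:ℝ) * (g:ℝ)^(S+(i+1)) * θ - w| := by
            rw [abs_mul (g * v : ℝ) _, abs_mul (u:ℝ) _, abs_of_nonneg (by positivity : (0:ℝ) ≤ g * v),
              abs_of_pos hu0]
        _ < g * v * τ + u * τ := by
            apply add_lt_add
            · apply mul_lt_mul_of_pos_left a3; positivity
            · apply mul_lt_mul_of_pos_left b3 hu0
        _ ≤ g * U * τ + U * τ := by gcongr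
        _ = (g+1)*U*τ := by ring
        _ ≤ 1 := h
    have h2 : |((u:ℤ) * w - (g:ℤ) * v * t : ℤ)| < 1 := by exact_mod_cast h1
    have h3 := Int.abs_lt_one_iff.1 h2
    linarith
  have hall : ∀ i, i ≤ n → (p i).2 * ((p 0).1:ℤ) = (g:ℤ)^i * (p 0).2 * (p i).1 := by
    intro i
    induction i with
    | zero => intro _; ring
    | succ i ih =>
      intro hi
      have h1 := ih (by omega)
      have h2 := hstep i hi
      have h3 : ((p i).1:ℤ) ≠ 0 := by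
        have := (hp i (by omega)).1
        omega
      apply mul_left_cancel₀ h3
      calc ((p i).1:ℤ) * ((p (i+1)).2 * ((p 0).1:ℤ)) = ((p i).1 * (p (i+1)).2) * (p 0).1 := by ring
        _ = ((g:ℤ) * (p (i+1)).1 * (p i).2) * (p 0).1 := by rw [h2]
        _ = (g:ℤ) * (p (i+1)).1 * ((p i).2 * (p 0).1) := by ring
        _ = (g:ℤ) * (p (i+1)).1 * ((g:ℤ)^i * (p 0).2 * (p i).1) := by rw [h1]
        _ = _ := by ring
  obtain ⟨a1, a2, a3⟩ := hp 0 (Nat.zero_le n)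
  obtain ⟨b1, b2, b3⟩ := hp n le_rfl
  refine ⟨(p 0).1, a1, a2, (p 0).2, ?_⟩
  have h4 := hall n le_rfl
  set u := (p 0).1
  set t := (p 0).2
  set v := (p n).1
  set w := (p n).2
  have hu0 : (0:ℝ) < u := by exact_mod_cast a1
  have hv1 : (1:ℝ) ≤ v := by exact_mod_cast b1
  have h4' : (w:ℝ) * u = (g:ℝ)^n * t * v := by exact_mod_cast h4
  have hgn : (0:ℝ) < (g:ℝ)^n := by positivity
  rw [le_div_iff₀ hgn]
  have e2 : (u:ℝ) * ((v:ℝ) * (g:ℝ)^(S+n) * θ - w) = v * ((g:ℝ)^n * ((u:ℝ) * (g:ℝ)^S * θ - t)) := by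
    rw [pow_add]; linear_combination (-1:ℝ) * h4'
  have h5 : |(u:ℝ) * ((v:ℝ) * (g:ℝ)^(S+n) * θ - w)| ≤ U * τ := by
    rw [abs_mul, abs_of_pos hu0]
    gcongr
  rw [e2, abs_mul, abs_mul, abs_of_pos (by linarith : (0:ℝ) < v), abs_of_pos hgn] at h5
  calc |(u:ℝ) * (g:ℝ)^S * θ - t| * (g:ℝ)^n = 1 * ((g:ℝ)^n * |(u:ℝ) * (g:ℝ)^S * θ - t|) := by ring
    _ ≤ v * ((g:ℝ)^n * |(u:ℝ) * (g:ℝ)^S * θ - t|) := by gcongr
    _ ≤ U * τ := h5

/-- good places exist and are not far -/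
theorem good_place (x κ c0 : ℝ) (hκ : 0 < κ) (hc0 : 0 < c0)
    (hx : ∀ q : ℕ, 1 ≤ q → ∀ p : ℤ, c0 ≤ (q : ℝ) ^ κ * |q * x - p|)
    (g : ℕ) (hg : 2 ≤ g) (a : ℤ) (ha : a ≠ 0) (U τ : ℝ) (hU : 1 ≤ U) (hτ : 0 < τ)
    (h : (g+1)*U*τ ≤ 1) (S : ℕ) :
    ∃ s : ℕ, S ≤ s ∧ (s:ℝ) ≤ (1+κ)*S + κ * (Real.log (U*|a|) / Real.log g) +
      (|Real.log c0|/Real.log 2 + 1) ∧ ¬ Bad g U τ (a*x) s := by
  have hgr : (2:ℝ) ≤ g := by exact_mod_cast hg
  have ha1 : (1:ℝ) ≤ |(a:ℝ)| := by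
    have : (1:ℤ) ≤ |a| := Int.one_le_abs ha
    exact_mod_cast this
  have hl2 : 0 < Real.log 2 := Real.log_pos (by norm_num)
  have hlg : Real.log 2 ≤ Real.log g := Real.log_le_log (by norm_num) hgr
  have hlg0 : 0 < Real.log g := lt_of_lt_of_le hl2 hlg
  have hUa : 1 ≤ U * |(a:ℝ)| := by nlinarith
  have hlUa : 0 ≤ Real.log (U * |(a:ℝ)|) := Real.log_nonneg hUa
  set X : ℝ := κ * S + κ * (Real.log (U*|(a:ℝ)|) / Real.log g) + |Real.log c0|/Real.log 2 with hX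
  have hX0 : 0 ≤ X := by positivity
  have key : ∀ n : ℕ, (∀ i ≤ n, Bad g U τ (a*x) (S+i)) → (n:ℝ) ≤ X := by
    intro n hn
    obtain ⟨u, hu1, hu2, t, ht⟩ := run g (by omega) U τ (a*x) hτ h S n hn
    have hu1r : (1:ℝ) ≤ u := by exact_mod_cast hu1
    have hq : 1 ≤ u * g^S * a.natAbs := by
      have h1 : 0 < a.natAbs := Int.natAbs_pos.2 ha
      have h2 : 0 < g^S := by positivity
      exact Nat.mul_pos (Nat.mul_pos hu1 h2) h1
    have h1 := hx (u * g^S * a.natAbs) hq (t * a.sign)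
    have habs : (a.natAbs : ℝ) = |(a:ℝ)| := by
      rw [Nat.cast_natAbs, Int.cast_abs]
    have hsign : ((a.sign:ℤ):ℝ) * |(a:ℝ)| = a := by
      have := Int.sign_mul_abs a
      exact_mod_cast this
    have hsq : ((a.sign:ℤ):ℝ) * (a.sign:ℤ) = 1 := by
      have : a.sign * a.sign = 1 := by
        rcases lt_or_gt_of_ne ha with h2 | h2
        · rw [Int.sign_eq_neg_one_of_neg h2]; norm_num
        · rw [Int.sign_eq_one_of_pos h2]; norm_num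
      exact_mod_cast this
    have hsabs : |((a.sign:ℤ):ℝ)| = 1 := by
      have h2 : |((a.sign:ℤ):ℝ)| * |((a.sign:ℤ):ℝ)| = 1 := by rw [abs_mul_abs_self]; exact hsq
      nlinarith [abs_nonneg ((a.sign:ℤ):ℝ)]
    set X1 : ℝ := ((u * g^S * a.natAbs : ℕ) : ℝ) with hX1
    have hX1e : X1 = u * (g:ℝ)^S * |(a:ℝ)| := by
      rw [hX1, Nat.cast_mul, Nat.cast_mul, Nat.cast_pow, habs]
    have e1 : |X1 * x - ((t * a.sign : ℤ) : ℝ)| = |(u:ℝ) * (g:ℝ)^S * (a * x) - t| := by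
      rw [hX1e]
      have : (u:ℝ) * (g:ℝ)^S * |(a:ℝ)| * x - ((t * a.sign : ℤ) : ℝ) =
          (a.sign:ℤ) * ((u:ℝ) * (g:ℝ)^S * (a * x) - t) := by
        push_cast
        have h3 : |(a:ℝ)| = (a.sign:ℤ) * a := by
          rw [← hsign, ← mul_assoc, hsign, hsq, one_mul]
        rw [h3]; ring
      rw [this, abs_mul, hsabs, one_mul]
    rw [e1] at h1
    have hX1pos : 0 < X1 := by rw [hX1]; exact_mod_cast hq
    have hX1le : X1 ≤ U * |(a:ℝ)| * (g:ℝ)^S := by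
      rw [hX1e]
      calc (u:ℝ) * (g:ℝ)^S * |(a:ℝ)| ≤ U * (g:ℝ)^S * |(a:ℝ)| := by gcongr
        _ = _ := by ring
    have hUτ : U * τ ≤ 1 := by
      have : U * τ ≤ (g+1)*U*τ := by
        have : 0 < U * τ := by positivity
        nlinarith
      linarith
    have hgn : (0:ℝ) < (g:ℝ)^n := by positivity
    have h2 : (g:ℝ)^n * c0 ≤ (U * |(a:ℝ)| * (g:ℝ)^S) ^ κ := by
      calc (g:ℝ)^n * c0 ≤ (g:ℝ)^n * (X1 ^ κ * |(u:ℝ) * (g:ℝ)^S * (a * x) - t|) := by gcongr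
        _ ≤ (g:ℝ)^n * (X1 ^ κ * (U * τ / (g:ℝ)^n)) := by gcongr
        _ = X1 ^ κ * (U * τ) := by field_simp
        _ ≤ X1 ^ κ * 1 := by gcongr
        _ = X1 ^ κ := mul_one _
        _ ≤ _ := Real.rpow_le_rpow hX1pos.le hX1le hκ.le
    have h3 := Real.log_le_log (by positivity) h2
    rw [Real.log_mul (by positivity) hc0.ne', Real.log_pow,
      Real.log_rpow (by positivity), Real.log_mul (by positivity) (by positivity), Real.log_pow] at h3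
    have h4 : (n:ℝ) * Real.log g ≤ X * Real.log g := by
      have h5 : |Real.log c0| ≤ |Real.log c0| / Real.log 2 * Real.log g := by
        rw [div_mul_eq_mul_div, le_div_iff₀ hl2]
        exact mul_le_mul_of_nonneg_left hlg (abs_nonneg _)
      have h6 : -|Real.log c0| ≤ Real.log c0 := neg_abs_le _
      have h7 : X * Real.log g = κ * S * Real.log g + κ * Real.log (U*|(a:ℝ)|) +
          |Real.log c0| / Real.log 2 * Real.log g := by
        rw [hX]; field_simp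
      rw [h7]
      linarith
    exact le_of_mul_le_mul_right h4 hlg0
  by_contra hcon
  push Not at hcon
  have h1 := key ⌊X + 1⌋₊ (by
    intro i hi
    by_contra hbad
    apply hbad
    apply hcon (S+i) (by omega)
    have h2 : (i:ℝ) ≤ X + 1 := by
      have h3 : (i:ℝ) ≤ ⌊X+1⌋₊ := by exact_mod_cast hi
      exact h3.trans (Nat.floor_le (by linarith))
    push_cast
    rw [hX] at h2
    linarith)
  have h2 := Nat.lt_floor_add_one (X + 1)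
  linarith

end Pool.Agent.TH869.LPD
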