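import Pool.Agent.TH869.LPD.Disc
import Pool.Agent.TH869.LPD.Place
import Pool.Agent.TH869.LPS.WeylQ

set_option autoImplicit false

/-!
# Equidistribution of `g ^ s (f(l) x + h(l))` with a power saving at good places `s`
-/

namespace Pool.Agent.TH869.LPD

open Finset Polynomial Pool.Agent.H332R2.Lit Pool.Agent.TH869.LPS

/-- the number of `l < N` with `fract (y l)` in `[α, β)` -/
noncomputable def cntArc (N : ℕ) (y : ℕ → ℝ) (α β : ℝ) : ℕ :=
  {l : ℕ | l < N ∧ α ≤ Int.fract (y l) ∧ Int.fract (y l) < β}.ncard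

lemma cntArc_eq (N : ℕ) (y : ℕ → ℝ) (α β : ℝ) :
    cntArc N y α β =
      ((range N).filter (fun l : ℕ => α ≤ Int.fract (y l) ∧ Int.fract (y l) < β)).card := by
  classical
  unfold cntArc
  rw [← Set.ncard_coe_finset]
  congr 1
  ext l
  simp

lemma cntArc_triv (N : ℕ) (y : ℕ → ℝ) (α β : ℝ) (hα : 0 ≤ α) (hαβ : α ≤ β) (hβ : β ≤ 1) :
    |(cntArc N y α β : ℝ) - (β - α) * N| ≤ N := by
  rw [cntArc_eq]
  have h1 : (((range N).filter (fun l : ℕ => α ≤ Int.fract (y l) ∧ Int.fract (y l) < β)).card : ℝ)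
      ≤ N := by
    have : ((range N).filter (fun l : ℕ => α ≤ Int.fract (y l) ∧ Int.fract (y l) < β)).card ≤
      (range N).card := card_le_card (filter_subset _ _)
    rw [card_range] at this
    exact_mod_cast this
  have hN : (0:ℝ) ≤ N := Nat.cast_nonneg _
  have h2 : 0 ≤ (β - α) * N := mul_nonneg (by linarith) hN
  have h3 : (β - α) * N ≤ 1 * N := by gcongr; linarith
  rw [abs_le]
  constructor
  · have : (0:ℝ) ≤ ((range N).filter (fun l : ℕ => α ≤ Int.fract (y l) ∧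
      Int.fract (y l) < β)).card := Nat.cast_nonneg _
    linarith
  · linarith

/-- the polynomial `f x + h` -/
noncomputable def pol (f : ℤ[X]) (h : ℝ[X]) (x : ℝ) : ℝ[X] := f.map (Int.castRingHom ℝ) * C x + h

lemma pol_eval (f : ℤ[X]) (h : ℝ[X]) (x : ℝ) (l : ℕ) :
    (pol f h x).eval (l:ℝ) = ((f.eval (l:ℤ) : ℤ) : ℝ) * x + h.eval (l:ℝ) := by
  unfold pol
  rw [eval_add, eval_mul, eval_C]
  congr 2
  have := Polynomial.eval_intCast_map (Int.castRingHom ℝ) f (l:ℤ)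
  simp

/-- discrepancy at a place which is not bad -/
theorem disc_good (e C0 : ℕ) (hC0 : 1 ≤ C0)
    (hW : ∀ κ : ℝ, 0 < κ → κ ≤ 1 →
    ∀ P : ℝ[X], P.natDegree ≤ e+1 → ∀ N : ℕ, 1 ≤ N →
      (∀ m : ℕ, 1 ≤ m → (m:ℝ) ≤ C0 * (1/κ)^C0 →
        C0 * (1/κ)^C0 / N ≤ |(m:ℝ) * P.coeff (e+1) - round ((m:ℝ) * P.coeff (e+1))|) →
      ‖∑ l ∈ range N, Pool.Agent.H332R2.Lit.e (P.eval (l:ℝ))‖ ≤ κ * N)
    (g : ℕ) (x : ℝ) (f : ℤ[X]) (hf : f.natDegree = e+1) (h : ℝ[X]) (hh : h.natDegree ≤ e)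
    (N : ℕ) (hN : 1 ≤ N) (m : ℕ) (hm : 1 ≤ m) (s : ℕ)
    (hs : ¬ Bad g ((C0:ℝ) * m^(4*C0) * m^3) ((C0:ℝ) * m^(4*C0) / N) (f.leadingCoeff * x) s)
    (α β : ℝ) (hα : 0 ≤ α) (hαβ : α ≤ β) (hβ : β ≤ 1) :
    |(cntArc N (fun l => (g:ℝ)^s * (((f.eval (l:ℤ) : ℤ) : ℝ) * x + h.eval (l:ℝ))) α β : ℝ) -
      (β - α) * N| ≤ 5 * N / m := by
  rw [cntArc_eq]
  have hmr : (1:ℝ) ≤ m := by exact_mod_cast hm
  have hm0 : (0:ℝ) < m := by linarith
  have hNr : (1:ℝ) ≤ N := by exact_mod_cast hN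
  have hkap : 1 / (1/(m:ℝ)^4) = (m:ℝ)^4 := by field_simp
  have hKe : (C0:ℝ) * (1 / (1/(m:ℝ)^4))^C0 = C0 * (m:ℝ)^(4*C0) := by rw [hkap, ← pow_mul]
  have := disc m hm (fun l : ℕ => (g:ℝ)^s * (((f.eval (l:ℤ) : ℤ) : ℝ) * x + h.eval (l:ℝ))) N
    (1/(m:ℝ)^4 * N) (by positivity) (by
      intro j hj0 hj
      set P : ℝ[X] := C ((j:ℝ) * (g:ℝ)^s) * pol f h x with hP
      have hPe : ∀ l ∈ range N, Pool.Agent.H332R2.Lit.e ((j:ℝ) * ((g:ℝ)^s * (((f.eval (l:ℤ) : ℤ) : ℝ) * x +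
          h.eval (l:ℝ)))) = Pool.Agent.H332R2.Lit.e (P.eval (l:ℝ)) := by
        intro l _
        rw [hP, eval_mul, eval_C, pol_eval]
        congr 1; ring
      rw [sum_congr rfl hPe]
      have hdf : (f.map (Int.castRingHom ℝ)).natDegree ≤ e + 1 := by
        rw [← hf]; exact natDegree_map_le
      have hPd : P.natDegree ≤ e + 1 := by
        rw [hP]
        refine (natDegree_C_mul_le _ _).trans ?_
        unfold pol
        refine (natDegree_add_le _ _).trans (max_le ?_ (by omega))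
        exact (natDegree_mul_C_le _ _).trans hdf
      have hPc : P.coeff (e+1) = (j:ℝ) * (g:ℝ)^s * (f.leadingCoeff * x) := by
        rw [hP, coeff_C_mul]
        unfold pol
        rw [coeff_add, coeff_mul_C, coeff_map, coeff_eq_zero_of_natDegree_lt (p := h) (by omega),
          add_zero, leadingCoeff, hf]
        simp
      apply hW (1/(m:ℝ)^4) (by positivity) (by
        rw [div_le_one (by positivity)]
        exact one_le_pow₀ hmr) P hPd N hN
      intro u hu1 hu2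
      rw [hKe] at hu2 ⊢
      by_contra hlt
      push Not at hlt
      apply hs
      have hjabs : 1 ≤ j.natAbs := Int.natAbs_pos.2 hj0
      have hna : ((j.natAbs : ℕ) : ℝ) = |(j:ℝ)| := by
        rw [Nat.cast_natAbs, Int.cast_abs]
      have hsg : ((j.natAbs : ℕ) : ℝ) = (j.sign:ℤ) * (j:ℝ) := by
        rw [hna]
        have h1 : |j| = j.sign * j := by
          rw [Int.sign_mul_self_eq_natAbs, Int.abs_eq_natAbs]
        exact_mod_cast h1
      have hsabs : |((j.sign:ℤ):ℝ)| = 1 := by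
        rcases lt_or_gt_of_ne hj0 with h2 | h2
        · rw [Int.sign_eq_neg_one_of_neg h2]; norm_num
        · rw [Int.sign_eq_one_of_pos h2]; norm_num
      refine ⟨u * j.natAbs, Nat.mul_pos hu1 hjabs, ?_,
        j.sign * round ((u:ℝ) * P.coeff (e+1)), ?_⟩
      · have h3 : ((|j|:ℤ):ℝ) ≤ (m:ℝ)^3 := by exact_mod_cast hj.le
        rw [Int.cast_abs, ← hna] at h3
        rw [Nat.cast_mul]
        gcongr
      · have e1 : ((u * j.natAbs : ℕ) : ℝ) * (g:ℝ)^s * (f.leadingCoeff * x) -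
            ((j.sign * round ((u:ℝ) * P.coeff (e+1)) : ℤ) : ℝ) =
            (j.sign:ℤ) * ((u:ℝ) * P.coeff (e+1) - round ((u:ℝ) * P.coeff (e+1))) := by
          rw [hPc]
          rw [Nat.cast_mul, hsg, Int.cast_mul]
          ring
        rw [e1, abs_mul, hsabs, one_mul]
        exact hlt) α β hα hαβ hβ
  refine this.trans (le_of_eq ?_)
  field_simp
  norm_num

/-- **Main theorem of this file, fixed degree.** -/
theorem poly_disc_deg (e : ℕ) : ∃ c : ℝ, 0 < c ∧ c ≤ 1 ∧ ∃ K : ℝ, 1 ≤ K ∧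
    ∀ x κ c0 : ℝ, 0 < κ → 0 < c0 →
    (∀ q : ℕ, 1 ≤ q → ∀ p : ℤ, c0 ≤ (q : ℝ) ^ κ * |q * x - p|) →
    ∀ g : ℕ, 2 ≤ g → ∀ f : ℤ[X], f.natDegree = e+1 → ∀ h : ℝ[X], h.natDegree ≤ e →
    ∀ N : ℕ, 1 ≤ N → ∀ S : ℕ, ∃ s : ℕ, S ≤ s ∧
      (s:ℝ) ≤ (1+κ) * S + κ * (Real.log (N * |(f.leadingCoeff:ℝ)|) / Real.log g) +
        (|Real.log c0|/Real.log 2 + 1) ∧
      ∀ α β : ℝ, 0 ≤ α → α ≤ β → β ≤ 1 →
        |(cntArc N (fun l => (g:ℝ)^s * (((f.eval (l:ℤ) : ℤ) : ℝ) * x + h.eval (l:ℝ))) α β : ℝ) -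
          (β - α) * N| ≤ K * N * ((g:ℝ)/N)^c := by
  obtain ⟨C0, hC0, hW⟩ := weylQ e
  set E : ℕ := 8*C0+3 with hE
  have hEr : (1:ℝ) ≤ E := by rw [hE]; push_cast; have : (0:ℝ) ≤ C0 := Nat.cast_nonneg _; linarith
  have hC0r : (1:ℝ) ≤ C0 := by exact_mod_cast hC0
  refine ⟨1/(E:ℝ), by positivity, by rw [div_le_one (by linarith)]; exact hEr,
    20 * (C0:ℝ)^2, by nlinarith, ?_⟩
  intro x κ c0 hκ hc0 hx g hg f hf h hh N hN S
  have hgr : (2:ℝ) ≤ g := by exact_mod_cast hg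
  have hNr : (1:ℝ) ≤ N := by exact_mod_cast hN
  have hf0 : f ≠ 0 := by
    intro h0; rw [h0, natDegree_zero] at hf; omega
  have hlc : f.leadingCoeff ≠ 0 := leadingCoeff_ne_zero.2 hf0
  have ha1 : (1:ℝ) ≤ |(f.leadingCoeff:ℝ)| := by
    have : (1:ℤ) ≤ |f.leadingCoeff| := Int.one_le_abs hlc
    exact_mod_cast this
  have hlg0 : 0 < Real.log g := Real.log_pos (by linarith)
  have hl2 : 0 < Real.log 2 := Real.log_pos (by norm_num)
  have hNa : 0 ≤ Real.log (N * |(f.leadingCoeff:ℝ)|) := Real.log_nonneg (by nlinarith)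
  rcases le_or_gt N ((g+1) * C0^2) with hsmall | hbig
  · -- trivial case
    refine ⟨S, le_rfl, ?_, ?_⟩
    · have h1 : 0 ≤ κ * S := by positivity
      have h2 : 0 ≤ κ * (Real.log (N * |(f.leadingCoeff:ℝ)|) / Real.log g) := by positivity
      have h3 : 0 ≤ |Real.log c0|/Real.log 2 := by positivity
      linarith
    · intro α β hα hαβ hβ
      refine (cntArc_triv N _ α β hα hαβ hβ).trans ?_
      have hs : (N:ℝ) ≤ (g+1) * C0^2 := by exact_mod_cast hsmall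
      have h1 : 1/(2*(C0:ℝ)^2) ≤ (g:ℝ)/N := by
        rw [div_le_div_iff₀ (by positivity) (by positivity)]
        nlinarith [sq_nonneg (C0:ℝ)]
      have h2 : 1/(2*(C0:ℝ)^2) ≤ (1/(2*(C0:ℝ)^2))^(1/(E:ℝ)) := by
        apply Real.self_le_rpow_of_le_one (by positivity)
        · rw [div_le_one (by positivity)]; nlinarith
        · rw [div_le_one (by linarith)]; exact hEr
      have h3 : (1/(2*(C0:ℝ)^2))^(1/(E:ℝ)) ≤ ((g:ℝ)/N)^(1/(E:ℝ)) :=
        Real.rpow_le_rpow (by positivity) h1 (by positivity)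
      have h4 : 1 ≤ 20 * (C0:ℝ)^2 * ((g:ℝ)/N)^(1/(E:ℝ)) := by
        calc (1:ℝ) = 2*(C0:ℝ)^2 * (1/(2*(C0:ℝ)^2)) := by field_simp
          _ ≤ 2*(C0:ℝ)^2 * ((g:ℝ)/N)^(1/(E:ℝ)) := by gcongr; linarith
          _ ≤ _ := by
            apply mul_le_mul_of_nonneg_right _ (by positivity)
            nlinarith [sq_nonneg (C0:ℝ)]
      nlinarith
  · -- main case
    have hex : ∃ m : ℕ, N ≤ (g+1) * C0^2 * (m+1)^E := by
      refine ⟨N, ?_⟩
      have h1 : N + 1 ≤ (N+1)^E := Nat.le_self_pow (by omega) _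
      have h2 : 1 ≤ (g+1) * C0^2 := Nat.mul_pos (by omega) (by positivity)
      calc N ≤ 1 * (N+1)^E := by omega
        _ ≤ (g+1) * C0^2 * (N+1)^E := Nat.mul_le_mul_right _ h2
    set m := Nat.find hex with hm
    have hm1 := Nat.find_spec hex
    rw [← hm] at hm1
    have hmpos : 1 ≤ m := by
      by_contra h0
      have : m = 0 := by omega
      rw [this] at hm1
      simp at hm1
      omega
    have hm2 : (g+1) * C0^2 * m^E < N := by
      have := Nat.find_min hex (m := m - 1) (by omega)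
      push Not at this
      have e1 : m - 1 + 1 = m := by omega
      rw [e1] at this
      exact this
    have hmr : (1:ℝ) ≤ m := by exact_mod_cast hmpos
    have hm0 : (0:ℝ) < m := by linarith
    have hm2r : ((g:ℝ)+1) * C0^2 * m^E < N := by exact_mod_cast hm2
    have hm1r : (N:ℝ) ≤ ((g:ℝ)+1) * C0^2 * (m+1)^E := by exact_mod_cast hm1
    set U : ℝ := (C0:ℝ) * m^(4*C0) * m^3 with hU
    set τ : ℝ := (C0:ℝ) * m^(4*C0) / N with hτ
    have hU1 : 1 ≤ U := by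
      rw [hU]
      have h1 : (1:ℝ) ≤ m^(4*C0) := one_le_pow₀ hmr
      have h2 : (1:ℝ) ≤ m^3 := one_le_pow₀ hmr
      calc (1:ℝ) = 1 * 1 * 1 := by norm_num
        _ ≤ _ := by gcongr
    have hUτ : ((g:ℝ)+1) * U * τ ≤ 1 := by
      have e1 : ((g:ℝ)+1) * U * τ = ((g:ℝ)+1) * C0^2 * m^E / N := by
        rw [hU, hτ, hE]
        rw [show 8*C0+3 = 4*C0+4*C0+3 by ring, pow_add, pow_add]
        ring
      rw [e1, div_le_one (by linarith)]
      exact hm2r.le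
    have hUN : U ≤ N := by
      have h1 : U ≤ ((g:ℝ)+1) * C0^2 * m^E := by
        rw [hU, hE]
        have h2 : (m:ℝ)^(4*C0) * m^3 ≤ m^(8*C0+3) := by
          rw [← pow_add]; exact pow_le_pow_right₀ hmr (by omega)
        calc (C0:ℝ) * (m:ℝ)^(4*C0) * (m:ℝ)^3 = C0 * ((m:ℝ)^(4*C0) * (m:ℝ)^3) := by ring
          _ ≤ C0 * (m:ℝ)^(8*C0+3) := by gcongr
          _ ≤ ((g:ℝ)+1) * C0^2 * m^(8*C0+3) := by
              apply mul_le_mul_of_nonneg_right _ (by positivity)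
              nlinarith
      linarith
    obtain ⟨s, hs1, hs2, hs3⟩ := good_place x κ c0 hκ hc0 hx g hg f.leadingCoeff hlc U τ hU1
      (by rw [hτ]; positivity) hUτ S
    rw [Int.cast_abs] at hs2
    refine ⟨s, hs1, hs2.trans ?_, ?_⟩
    · gcongr
    · intro α β hα hαβ hβ
      have h1 := disc_good e C0 hC0 hW g x f hf h hh N hN m hmpos s hs3 α β hα hαβ hβ
      refine h1.trans ?_
      have h2 : (1:ℝ)/((m:ℝ)+1) ≤ (2*(C0:ℝ)^2) * ((g:ℝ)/N)^(1/(E:ℝ)) := by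
        have h3 : (1/((m:ℝ)+1))^E ≤ (2*(C0:ℝ)^2) * ((g:ℝ)/N) := by
          rw [div_pow, one_pow, div_le_iff₀ (by positivity)]
          have h4 : (1:ℝ) ≤ ((g:ℝ)+1) * C0^2 * (m+1)^E / N := by
            rw [le_div_iff₀ (by linarith)]; linarith
          refine h4.trans ?_
          have h5 : ((g:ℝ)+1) * C0^2 * (m+1)^E / N ≤ (2*g) * C0^2 * (m+1)^E / N := by
            gcongr; linarith
          refine h5.trans (le_of_eq ?_)
          ring
        have h6 : (1:ℝ)/((m:ℝ)+1) = ((1/((m:ℝ)+1))^E)^(1/(E:ℝ)) := by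
          rw [← Real.rpow_natCast, ← Real.rpow_mul (by positivity), mul_one_div_cancel (by positivity),
            Real.rpow_one]
        rw [h6]
        calc ((1/((m:ℝ)+1))^E)^(1/(E:ℝ)) ≤ ((2*(C0:ℝ)^2) * ((g:ℝ)/N))^(1/(E:ℝ)) :=
              Real.rpow_le_rpow (by positivity) h3 (by positivity)
          _ = (2*(C0:ℝ)^2)^(1/(E:ℝ)) * ((g:ℝ)/N)^(1/(E:ℝ)) :=
              Real.mul_rpow (by positivity) (by positivity)
          _ ≤ (2*(C0:ℝ)^2) * ((g:ℝ)/N)^(1/(E:ℝ)) := by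
              gcongr
              apply Real.rpow_le_self_of_one_le
              · nlinarith
              · rw [div_le_one (by linarith)]; exact hEr
      have h7 : (1:ℝ)/m ≤ 2 * (1/((m:ℝ)+1)) := by
        rw [mul_one_div, div_le_div_iff₀ hm0 (by linarith)]
        linarith
      calc 5 * (N:ℝ) / m = 5 * N * (1/m) := by ring
        _ ≤ 5 * N * (2 * ((2*(C0:ℝ)^2) * ((g:ℝ)/N)^(1/(E:ℝ)))) := by
            gcongr
            exact h7.trans (by gcongr)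
        _ = _ := by ring

end Pool.Agent.TH869.LPD
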