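import Pool.Agent.TH869.LPD.Poly
import Pool.Agent.W226.MP.Place

set_option autoImplicit false

/-!
# Blocks of digits in windows of a sequence which is well distributed at one place
-/

namespace Pool.Agent.TH869.LPD

open Finset Pool.Agent.W226.MP

/-- **Frequencies.** -/
theorem freqG (b k L : ℕ) (hb : 2 ≤ b) (hk : 1 ≤ k) (hkL : k ≤ L) (n N : ℕ) (y : ℕ → ℝ)
    (H : ℝ) (hH0 : 0 ≤ H)
    (hH : ∀ z < b ^ L, (((range N).filter (fun m : ℕ =>
      ⌊Int.fract (y m * (b:ℝ)^n) * ((b ^ L : ℕ) : ℝ)⌋₊ = z)).card : ℝ) ≤ H)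
    (ε : ℝ) (hε : 0 < ε) (hε1 : ε ≤ 1)
    (S : Finset ℕ)
    (hS : ∀ m ∈ S, m < N ∧ ∃ w : ℕ → ℕ, (∀ s, w s < b) ∧ ε * (L + 1 - k : ℕ) + k <
        |(((range (L + 1 - k)).filter (fun j =>
          ∀ s < k, ⌊(y m) * (b : ℝ) ^ (n + j + s + 1)⌋ % (b : ℤ) = w s)).card : ℝ)
            - (L + 1 - k : ℕ) / (b : ℝ) ^ k|) :
    (S.card : ℝ) ≤ 2 * k * (b : ℝ) ^ k
      * Real.exp (-(ε ^ 2 / 4) * ((L + 1 - k) / k : ℕ)) * ((b : ℝ) ^ L * H) := by
  classical
  have hb0 : 0 < b := by omega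
  set l := L + 1 - k with hl
  set t := l / k with ht
  set B := b ^ k with hB
  have hkt : k * t ≤ l := Nat.mul_div_le l k
  let zz : ℕ → ℕ := fun m => ⌊Int.fract (y m * (b : ℝ) ^ n) * ((b ^ L : ℕ) : ℝ)⌋₊
  let Zb : ℕ → ℕ → Finset ℕ := fun r a => (range (b ^ L)).filter (fun z : ℕ =>
      ε * t < |(cnt B a t (z / b ^ (L - r - k * t)) : ℝ) - t / ((B : ℕ) : ℝ)|)
  let T : ℕ → Finset ℕ := fun z => (range N).filter (fun m : ℕ => zz m = z)
  have hT : ∀ z < b ^ L, (T z).card ≤ ⌊H⌋₊ := fun z hz => Nat.le_floor (hH z hz)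
  have hZb : ∀ r < k, ∀ a < B, ((Zb r a).card : ℝ) ≤ 2 * Real.exp (-(ε ^ 2 / 4) * t) * (b : ℝ) ^ L := by
    intro r hr a ha
    have h1 := bad_z b k t r (L - r - k * t) a hb hk ha ε hε hε1
    have e : r + k * t + (L - r - k * t) = L := by omega
    rw [e] at h1
    exact h1
  have hsub : S ⊆ (range k).biUnion (fun r => (range B).biUnion (fun a => (Zb r a).biUnion T)) := by
    intro m hm
    obtain ⟨hmM, w, hw, hlt⟩ := hS m hm
    by_contra hcon
    have h1 := count_close b k hb hk w hw (y m) n l ε hε.le (by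
      intro r hr
      by_contra hlt2
      push Not at hlt2
      apply hcon
      simp only [Finset.mem_biUnion]
      have hr1 : r + k * t ≤ L := by omega
      refine ⟨r, Finset.mem_range.2 hr, val b w k, Finset.mem_range.2 (val_lt b w hw k), zz m, ?_, ?_⟩
      · rw [Finset.mem_filter, Finset.mem_range]
        constructor
        · change ⌊Int.fract (y m * (b : ℝ) ^ n) * ((b ^ L : ℕ) : ℝ)⌋₊ < b ^ L
          have h3 := Int.fract_nonneg (y m * (b : ℝ) ^ n)
          have h4 := Int.fract_lt_one (y m * (b : ℝ) ^ n)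
          have h5 : (0 : ℝ) < ((b ^ L : ℕ) : ℝ) := by positivity
          rw [Nat.floor_lt (by positivity)]
          nlinarith
        · have e1 : (y m) * (b : ℝ) ^ (n + r) = (y m * (b : ℝ) ^ n) * (b : ℝ) ^ r := by
            rw [pow_add]; ring
          have e2 : ((b ^ k : ℕ) : ℝ) ^ (l / k) = (b : ℝ) ^ (k * t) := by
            push_cast; rw [← pow_mul]
          rw [e1, e2, sub_word b L r (k * t) (L - r - k * t) hb0 (by omega)] at hlt2
          have e4 : zz m = ⌊Int.fract (y m * (b : ℝ) ^ n) * (b : ℝ) ^ L⌋₊ := by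
            change ⌊_ * ((b ^ L : ℕ) : ℝ)⌋₊ = _
            rw [Nat.cast_pow]
          rw [e4]
          have e5 : b ^ (k * t) = B ^ t := by rw [hB, pow_mul]
          rw [e5, ← ht, cnt_mod B _ t _ (by positivity)] at hlt2
          exact hlt2
      · rw [Finset.mem_filter, Finset.mem_range]
        exact ⟨hmM, rfl⟩)
    linarith
  have h1 : (S.card : ℝ) ≤ ∑ r ∈ range k, ∑ a ∈ range B, ((Zb r a).card : ℝ) * ⌊H⌋₊ := by
    have h2 : S.card ≤ ∑ r ∈ range k, ∑ a ∈ range B, (Zb r a).card * ⌊H⌋₊ := by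
      refine (Finset.card_le_card hsub).trans (Finset.card_biUnion_le.trans ?_)
      apply Finset.sum_le_sum; intro r _
      refine Finset.card_biUnion_le.trans ?_
      apply Finset.sum_le_sum; intro a _
      exact Finset.card_biUnion_le_card_mul _ _ _
        (fun z hz => hT z (Finset.mem_range.1 (Finset.mem_filter.1 hz).1))
    exact_mod_cast h2
  refine h1.trans ?_
  have hfl : (⌊H⌋₊ : ℝ) ≤ H := Nat.floor_le hH0
  calc ∑ r ∈ range k, ∑ a ∈ range B, ((Zb r a).card : ℝ) * ⌊H⌋₊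
      ≤ ∑ r ∈ range k, ∑ a ∈ range B, (2 * Real.exp (-(ε ^ 2 / 4) * t) * (b : ℝ) ^ L) * H :=
        Finset.sum_le_sum (fun r hr => Finset.sum_le_sum (fun a ha =>
          mul_le_mul (hZb r (Finset.mem_range.1 hr) a (Finset.mem_range.1 ha)) hfl
            (Nat.cast_nonneg _) (by positivity)))
    _ = _ := by
        rw [Finset.sum_const, Finset.sum_const, card_range, card_range, nsmul_eq_mul, nsmul_eq_mul, hB]
        push_cast
        ring

/-- the number of words without a given letter -/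
lemma zero_cnt (B a m : ℕ) (hB : 2 ≤ B) (ha : a < B) :
    (((range (B ^ m)).filter (fun z => cnt B a m z = 0)).card : ℝ) ≤
      Real.exp (-(m / (2 * B))) * (B:ℝ) ^ m := by
  have hBr : (2:ℝ) ≤ B := by exact_mod_cast hB
  have h1 : (((range (B ^ m)).filter (fun z => cnt B a m z = 0)).card : ℝ) ≤
      ∑ z ∈ range (B ^ m), Real.exp ((-1) * cnt B a m z) := by
    rw [Finset.card_filter]
    push_cast
    apply Finset.sum_le_sum
    intro z _
    split_ifs with h
    · rw [h]; simp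
    · positivity
  rw [exp_moment B a hB ha] at h1
  refine h1.trans ?_
  have h2 : Real.exp (-1) + ((B:ℝ) - 1) ≤ Real.exp (-(1/(2*B))) * B := by
    have h3 : Real.exp (-1) ≤ 1/2 := by
      have := Real.exp_one_gt_d9
      rw [Real.exp_neg, inv_le_comm₀ (Real.exp_pos _) (by norm_num)]
      linarith
    have h4 := Real.add_one_le_exp (-(1/(2*(B:ℝ))))
    have h5 : (-(1/(2*(B:ℝ))) + 1) * B = B - 1/2 := by field_simp; ring
    have h6 : (-(1/(2*(B:ℝ))) + 1) * B ≤ Real.exp (-(1/(2*B))) * B := by gcongr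
    linarith
  have h0 : 0 ≤ Real.exp (-1) + ((B:ℝ) - 1) := by
    have := Real.exp_pos (-1)
    linarith
  calc (Real.exp (-1) + ((B:ℝ) - 1)) ^ m ≤ (Real.exp (-(1/(2*B))) * B) ^ m :=
        pow_le_pow_left₀ h0 h2 m
    _ = _ := by
        rw [mul_pow, ← Real.exp_nat_mul]
        congr 2
        ring

/-- **Avoided blocks.** -/
theorem avoidG (b k m : ℕ) (hb : 2 ≤ b) (hk : 1 ≤ k) (n N : ℕ) (y : ℕ → ℝ)
    (H : ℝ) (hH0 : 0 ≤ H)
    (hH : ∀ z < b ^ (k * m), (((range N).filter (fun l : ℕ =>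
      ⌊Int.fract (y l * (b:ℝ)^n) * ((b ^ (k * m) : ℕ) : ℝ)⌋₊ = z)).card : ℝ) ≤ H)
    (w : Fin k → Fin b) (S : Finset ℕ)
    (hS : ∀ l ∈ S, l < N ∧ ∀ u < m, ¬ OccursAt b k w (y l) (n + k * u)) :
    (S.card : ℝ) ≤ Real.exp (-(m / (2 * (b:ℝ) ^ k))) * ((b:ℝ) ^ (k * m) * H) := by
  classical
  have hb0 : 0 < b := by omega
  set B := b ^ k with hB
  have hB2 : 2 ≤ B := by
    calc 2 ≤ b := hb
      _ = b ^ 1 := (pow_one b).symm
      _ ≤ b ^ k := Nat.pow_le_pow_right (by omega) hk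
  have hBm : b ^ (k * m) = B ^ m := by rw [hB, pow_mul]
  set a := val b (ext b k w) k with ha
  have haB : a < B := val_lt b _ (ext_lt b k hb w) k
  let zz : ℕ → ℕ := fun l => ⌊Int.fract (y l * (b : ℝ) ^ n) * ((b ^ (k * m) : ℕ) : ℝ)⌋₊
  let T : ℕ → Finset ℕ := fun z => (range N).filter (fun l : ℕ => zz l = z)
  set Z := (range (B ^ m)).filter (fun z => cnt B a m z = 0) with hZ
  have hT : ∀ z < b ^ (k * m), (T z).card ≤ ⌊H⌋₊ := fun z hz => Nat.le_floor (hH z hz)
  have hsub : S ⊆ Z.biUnion T := by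
    intro l hl
    obtain ⟨hlN, hav⟩ := hS l hl
    rw [Finset.mem_biUnion]
    refine ⟨zz l, ?_, ?_⟩
    · rw [hZ, Finset.mem_filter, Finset.mem_range]
      constructor
      · rw [← hBm]
        change ⌊Int.fract (y l * (b : ℝ) ^ n) * ((b ^ (k * m) : ℕ) : ℝ)⌋₊ < b ^ (k * m)
        have h3 := Int.fract_nonneg (y l * (b : ℝ) ^ n)
        have h4 := Int.fract_lt_one (y l * (b : ℝ) ^ n)
        have h5 : (0 : ℝ) < ((b ^ (k * m) : ℕ) : ℝ) := by positivity
        rw [Nat.floor_lt (by positivity)]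
        nlinarith
      · have e1 : zz l = ⌊Int.fract (y l * (b : ℝ) ^ n) * (B : ℝ) ^ m⌋₊ := by
          change ⌊_ * ((b ^ (k * m) : ℕ) : ℝ)⌋₊ = _
          rw [hBm, Nat.cast_pow]
        rw [e1, ← count_eq B m a (by omega), Finset.card_eq_zero, Finset.filter_eq_empty_iff]
        intro u hu
        rw [Finset.mem_range] at hu
        intro hcon
        apply hav u hu
        rw [occursAt_iff, occ_iff b hb0 _ (ext_lt b k hb w)]
        rw [← ha]
        have e2 : y l * (b:ℝ) ^ (n + k * u + k) = y l * (b:ℝ) ^ n * (B:ℝ) ^ (u+1) := by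
          rw [hB, Nat.cast_pow, ← pow_mul, mul_assoc, ← pow_add]
          congr 2
          ring
        rw [e2]
        have e3 : ((b:ℤ) ^ k) = (B:ℤ) := by rw [hB]; push_cast; rfl
        rw [e3]
        exact hcon
    · rw [Finset.mem_filter, Finset.mem_range]
      exact ⟨hlN, rfl⟩
  have h1 : (S.card : ℝ) ≤ (Z.card : ℝ) * ⌊H⌋₊ := by
    have h2 : S.card ≤ Z.card * ⌊H⌋₊ := by
      refine (Finset.card_le_card hsub).trans ?_
      apply Finset.card_biUnion_le_card_mul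
      intro z hz
      apply hT z
      rw [hBm]
      exact Finset.mem_range.1 (Finset.mem_filter.1 hz).1
    exact_mod_cast h2
  have h3 := zero_cnt B a m hB2 haB
  have hfl : (⌊H⌋₊ : ℝ) ≤ H := Nat.floor_le hH0
  have e4 : ((B:ℕ):ℝ) = (b:ℝ) ^ k := by rw [hB]; push_cast; rfl
  calc (S.card : ℝ) ≤ (Z.card : ℝ) * ⌊H⌋₊ := h1
    _ ≤ (Real.exp (-(m / (2 * B))) * (B:ℝ) ^ m) * H := by
        apply mul_le_mul h3 hfl (Nat.cast_nonneg _) (by positivity)
    _ = _ := by rw [e4, ← pow_mul]; ring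

end Pool.Agent.TH869.LPD
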